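import Mathlib
import Pool.Agent.LS.LBfinal

/-!
# Long screening kernels and affine W-algebras at integral level

Let `A` be the Cartan matrix of a simply laced Lie algebra of rank `l`, `p ≥ 1` an integer and
`k = p - h^∨`.  The common kernel `K_p^+` of the long screenings `e^{√p α_i}_0` on `M(1)` is the
affine W-algebra of level `k`: it is the continuation to `ν = p` of the generic common kernel
(which is the W-algebra by Feigin and Frenkel), it has the character of the W-algebra, and it is
the only subspace of `K_p^+` with that character.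

The definitions are in `Pool/Agent/LS/Defs.lean`.
-/

namespace Pool.Agent.Results.MP_ef3403_al.LongScreenings

open MvPolynomial Pool.Agent.LS

theorem result (l : ℕ) (A : Matrix (Fin l) (Fin l) ℤ) (hA : SimplyLaced A) :
    Nonempty (BasicInvariants A) ∧
    ∀ (B : BasicInvariants A) (p : ℕ), 1 ≤ p →
      Wfam A (p : ℂ) = Kplus A (p : ℂ) ∧
      (∀ N : ℕ, Module.finrank ℂ ↥(Kplus A (p : ℂ) ⊓ WH l ℂ N) = vac B.d N) ∧
      (∀ W : Submodule ℂ (MvPolynomial (Fin l × ℕ) ℂ), W ≤ Kplus A (p : ℂ) →
        (∀ N : ℕ, vac B.d N ≤ Module.finrank ℂ ↥(W ⊓ WH l ℂ N)) → W = Kplus A (p : ℂ)) := by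
  refine ⟨?_, fun B p hp => ⟨Wfam_eq A hA B p hp, fun N => finrank_Kplus_eq_vac A hA B p hp N,
    fun W hW h => eq_Kplus_of_finrank A (p : ℂ) W hW fun N =>
      (finrank_Kplus_eq_vac A hA B p hp N).le.trans (h N)⟩⟩
  obtain ⟨d, P, -, hhom, hinv, -, hgen⟩ := exists_basic hA
  exact ⟨⟨d, P, hhom, hinv, hgen⟩⟩

end Pool.Agent.Results.MP_ef3403_al.LongScreenings
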